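import Pool.Agent.V11276.KR7

namespace Pool.Agent.Results.MP_66ba75_co.OddBipartiteMaximisers

open Finset

/-- `e_k(n,a)`: number of edges of the complete oddly bipartite `2k`-graph with part sizes `a`, `n - a` -/
def edges (k n a : ℕ) : ℕ :=
  ∑ i ∈ (range (2 * k + 1)).filter Odd, a.choose i * (n - a).choose (2 * k - i)

/-- `M_k(n)`: the set of `a ∈ {0, …, n}` at which `e_k(n, ·)` attains its maximum -/
def M (k n : ℕ) : Set ℕ := {a | a ≤ n ∧ ∀ b ≤ n, edges k n b ≤ edges k n a}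

/-- the binomial coefficient `x (x - 1) ⋯ (x - j + 1) / j!` for real `x` -/
noncomputable def gbin (x : ℝ) (j : ℕ) : ℝ := (∏ i ∈ range j, (x - i)) / (j.factorial : ℝ)

/-- the binary Krawtchouk polynomial `K_m(x; N)` -/
noncomputable def krawtchouk (m : ℕ) (x N : ℝ) : ℝ :=
  ∑ j ∈ range (m + 1), (-1) ^ j * gbin x j * gbin (N - x) (m - j)

/-- the rounding rule: the integers in `[ξ, ξ + 1]` and their reflections `a ↦ n - a`
(two integers in all, four if `ξ` is an integer) -/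
noncomputable def rounding (n : ℕ) (ξ : ℝ) : Set ℕ := {⌈ξ⌉₊, ⌊ξ⌋₊ + 1, n - ⌈ξ⌉₊, n - (⌊ξ⌋₊ + 1)}

theorem result :
    -- exact rule for every `k ≥ 2`: round the least zero of `K_{2k-1}(·; n-1)`
    (∀ k : ℕ, 2 ≤ k → ∃ n₀ : ℕ, ∀ n : ℕ, n₀ ≤ n → ∃ ξ : ℝ,
      IsLeast {x : ℝ | krawtchouk (2 * k - 1) x ((n : ℝ) - 1) = 0} ξ ∧ M k n = rounding n ξ) ∧
    -- asymptotic value of that zero: `z` is the largest zero of the Hermite polynomial `He_{2k-1}`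
    (∀ k : ℕ, 2 ≤ k → ∃ z : ℝ,
      IsGreatest {t : ℝ | Polynomial.aeval t (Polynomial.hermite (2 * k - 1)) = 0} z ∧ 0 < z ∧
      ∃ C : ℝ, ∃ n₀ : ℕ, ∀ n : ℕ, n₀ ≤ n → ∀ ξ : ℝ,
        IsLeast {x : ℝ | krawtchouk (2 * k - 1) x ((n : ℝ) - 1) = 0} ξ →
        |ξ - ((n : ℝ) - 1 - z * √n) / 2| ≤ C / √n) ∧
    -- closed form for `k = 2`, for every `n ≥ 2k = 4`
    (∀ n : ℕ, 4 ≤ n → M 2 n = rounding n (((n : ℝ) - 1 - √(3 * n - 5)) / 2)) ∧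
    -- closed form for `k = 3`
    (∃ n₀ : ℕ, ∀ n : ℕ, n₀ ≤ n → M 3 n =
      rounding n (((n : ℝ) - 1 - √(5 * n - 15 + √(10 * (n : ℝ) ^ 2 - 70 * n + 136))) / 2)) := by
  have hleast : ∀ (k : ℕ) (n : ℕ) (ξ : ℝ), V11276.KR.K (2 * k - 1) ξ ((n : ℝ) - 1) = 0 →
      (∀ x, x < ξ → 0 < V11276.KR.K (2 * k - 1) x ((n : ℝ) - 1)) →
      IsLeast {x : ℝ | krawtchouk (2 * k - 1) x ((n : ℝ) - 1) = 0} ξ := by
    intro k n ξ h1 h2
    refine ⟨h1, fun x hx => ?_⟩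
    have hx : V11276.KR.K (2 * k - 1) x ((n : ℝ) - 1) = 0 := hx
    by_contra hc
    have h3 := h2 x (not_le.mp hc)
    rw [hx] at h3
    exact lt_irrefl _ h3
  refine ⟨?_, ?_, ?_, ?_⟩
  · intro k hk
    obtain ⟨z, C, -, -, N0, -, h⟩ := V11276.KR.final k hk
    refine ⟨N0, fun n hn => ?_⟩
    obtain ⟨ξ, p1, p2, -, p4⟩ := h n hn
    exact ⟨ξ, hleast k n ξ p1 p2, p4⟩
  · intro k hk
    obtain ⟨z, C, hz, hz0, N0, -, h⟩ := V11276.KR.final k hk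
    refine ⟨z, hz, hz0, C, N0, fun n hn ξ' hξ' => ?_⟩
    obtain ⟨ξ, p1, p2, p3, -⟩ := h n hn
    rw [hξ'.unique (hleast k n ξ p1 p2)]
    exact p3
  · exact fun n hn => V11276.KR.two_all n hn
  · obtain ⟨z, C, -, -, N0, hN0, h⟩ := V11276.KR.final 3 (by norm_num)
    refine ⟨max N0 4, fun n hn => ?_⟩
    obtain ⟨ξ, p1, p2, -, p4⟩ := h n (le_trans (le_max_left _ _) hn)
    have hn2 : (4 : ℝ) ≤ n := by exact_mod_cast (le_trans (le_max_right _ _) hn)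
    have h5 := V11276.KR.least_five ((n : ℝ) - 1) ξ (by linarith) p1 p2
    have h6 : 5 * ((n : ℝ) - 1) - 10 = 5 * n - 15 := by ring
    have h7 : 10 * ((n : ℝ) - 1) ^ 2 - 50 * ((n : ℝ) - 1) + 76 = 10 * (n : ℝ) ^ 2 - 70 * n + 136 := by ring
    rw [h6, h7] at h5
    rw [← h5]
    exact p4

end Pool.Agent.Results.MP_66ba75_co.OddBipartiteMaximisers
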